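import Pool.Agent.helper43.BMH.Spec

set_option autoImplicit false

namespace Pool.Agent.helper43.BMH

open Finset

theorem CPS_sq {ι : Type} [Fintype ι] (x y z : ι → ℝ) {a b : ℝ}
    (h1 : ∑ i, (x i - y i) ^ 2 ≤ a) (h2 : ∑ i, (y i - z i) ^ 2 ≤ b) :
    ∑ i, (x i - z i) ^ 2 ≤ 2 * a + 2 * b := by
  calc ∑ i, (x i - z i) ^ 2 ≤ ∑ i, (2 * (x i - y i) ^ 2 + 2 * (y i - z i) ^ 2) := by
        apply Finset.sum_le_sum
        intro i _
        nlinarith [sq_nonneg ((x i - y i) - (y i - z i))]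
    _ = 2 * ∑ i, (x i - y i) ^ 2 + 2 * ∑ i, (y i - z i) ^ 2 := by
        rw [Finset.sum_add_distrib, Finset.mul_sum, Finset.mul_sum]
    _ ≤ 2 * a + 2 * b := by linarith

theorem CPS_sym {ι : Type} [Fintype ι] (x y : ι → ℝ) :
    ∑ i, (x i - y i) ^ 2 = ∑ i, (y i - x i) ^ 2 := by
  apply Finset.sum_congr rfl
  intro i _
  ring

theorem CPS_iso (hn : HDN) {ι : Type} [Fintype ι] [DecidableEq ι] {T : Matrix ι ι ℝ}
    (hT : IsHad T) (v : ι → ℝ) :
    ∑ i, (T.mulVec v i / Real.sqrt (Fintype.card ι)) ^ 2 = ∑ i, (v i) ^ 2 := by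
  rcases isEmpty_or_nonempty ι with h | h
  · simp
  have h1 := (hn ι T hT).2.2 v
  have hc : (0 : ℝ) < Fintype.card ι := by exact_mod_cast Fintype.card_pos
  have h2 : ∀ i, (T.mulVec v i / Real.sqrt (Fintype.card ι)) ^ 2 =
      (T.mulVec v i) ^ 2 / (Fintype.card ι : ℝ) := by
    intro i
    rw [div_pow, Real.sq_sqrt hc.le]
  rw [Finset.sum_congr rfl fun i _ => h2 i, ← Finset.sum_div, h1]
  field_simp

theorem CPS_fib {α β : Type} [DecidableEq β] (s : Finset α) (f : α → β) {M : ℝ}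
    (h : ∀ b ∈ s.image f, ((s.filter fun x => f x = b).card : ℝ) ≤ M) :
    (s.card : ℝ) ≤ M * ((s.image f).card : ℝ) := by
  have h1 : s.card = ∑ b ∈ s.image f, (s.filter fun x => f x = b).card :=
    Finset.card_eq_sum_card_fiberwise fun x hx => Finset.mem_image_of_mem f hx
  have h2 : (s.card : ℝ) = ∑ b ∈ s.image f, ((s.filter fun x => f x = b).card : ℝ) := by
    rw [h1]
    push_cast
    rfl
  rw [h2]
  calc ∑ b ∈ s.image f, ((s.filter fun x => f x = b).card : ℝ) ≤ ∑ _b ∈ s.image f, M :=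
        Finset.sum_le_sum h
    _ = M * ((s.image f).card : ℝ) := by
        rw [Finset.sum_const, nsmul_eq_mul, mul_comm]

theorem CPS_sv {ι : Type} [Fintype ι] (y : ι → ℤˣ) : ∑ i, (sv y i) ^ 2 = (Fintype.card ι : ℝ) := by
  have h : ∀ i, (sv y i) ^ 2 = 1 := by
    intro i
    unfold sv
    rcases Int.units_eq_one_or (y i) with h | h <;> rw [h] <;> norm_num
  rw [Finset.sum_congr rfl fun i _ => h i]
  simp

theorem CPS_round {ι : Type} [Fintype ι] (lam : ℝ) (u : ι → ℤ) :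
    ∑ i, (lam * (u i : ℝ) - ((round (lam * (u i : ℝ)) : ℤ) : ℝ)) ^ 2 ≤ (spt u : ℝ) / 4 := by
  classical
  have h1 : ∀ i, (lam * (u i : ℝ) - ((round (lam * (u i : ℝ)) : ℤ) : ℝ)) ^ 2 ≤
      if u i ≠ 0 then (1 / 4 : ℝ) else 0 := by
    intro i
    by_cases h : u i = 0
    · rw [if_neg (not_not.2 h), h]
      simp
    · rw [if_pos h]
      have h2 := abs_sub_round (lam * (u i : ℝ))
      have h3 := abs_le.1 h2
      nlinarith
  calc _ ≤ ∑ i, (if u i ≠ 0 then (1 / 4 : ℝ) else 0) := Finset.sum_le_sum fun i _ => h1 i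
    _ = (spt u : ℝ) / 4 := by
        rw [← Finset.sum_filter, Finset.sum_const, nsmul_eq_mul]
        unfold spt
        ring

theorem CPS_spt {ι : Type} [Fintype ι] (lam : ℝ) (u : ι → ℤ) :
    spt (fun i => round (lam * (u i : ℝ))) ≤ spt u := by
  classical
  unfold spt
  apply Finset.card_le_card
  intro i hi
  rw [Finset.mem_filter] at hi ⊢
  refine ⟨hi.1, ?_⟩
  intro h
  apply hi.2
  show round (lam * (u i : ℝ)) = 0
  rw [h]
  simp

theorem t_cps (h1 : CN1) (h2 : CN2) (hn : HDN) : CPS := by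
  classical
  intro φ hφ
  obtain ⟨κ₂, hκ20, hκ21, H2⟩ := h2 (φ / 2) (by linarith)
  obtain ⟨ρ₁, hρ1, H1⟩ := h1 (φ / 2) (by linarith)
  obtain ⟨κ, hκ⟩ : ∃ κ : ℝ, κ = min κ₂ (ρ₁ / 4) := ⟨_, rfl⟩
  have hκ0 : 0 < κ := by
    rw [hκ]
    exact lt_min hκ20 (by linarith)
  have hκa : κ ≤ κ₂ := by rw [hκ]; exact min_le_left _ _
  have hκb : κ ≤ ρ₁ / 4 := by rw [hκ]; exact min_le_right _ _
  refine ⟨κ, hκ0, hκa.trans hκ21, ?_⟩
  intro lam hlam η hη
  obtain ⟨ρ₂, hρ2, H3⟩ := h1 η hη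
  obtain ⟨δ, hδ⟩ : ∃ δ : ℝ, δ = min (lam ^ 2 * ρ₂ / 4) (κ / 4) := ⟨_, rfl⟩
  have hδ0 : 0 < δ := by
    rw [hδ]
    exact lt_min (by positivity) (by linarith)
  have hδa : δ ≤ lam ^ 2 * ρ₂ / 4 := by rw [hδ]; exact min_le_left _ _
  have hδb : δ ≤ κ / 4 := by rw [hδ]; exact min_le_right _ _
  refine ⟨δ, hδ0, ?_⟩
  intro ι _ _ T hT D hD U hU
  obtain ⟨n, hnn⟩ : ∃ n : ℝ, n = (Fintype.card ι : ℝ) := ⟨_, rfl⟩
  have hn0 : 0 ≤ n := by rw [hnn]; positivity
  rw [← hnn] at hD hU ⊢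
  have hD1 : D ≤ lam ^ 2 * ρ₂ / 4 * n := hD.trans (mul_le_mul_of_nonneg_right hδa hn0)
  have hD2 : D ≤ κ / 4 * n := hD.trans (mul_le_mul_of_nonneg_right hδb hn0)
  -- the pairs
  obtain ⟨S, hS⟩ : ∃ S : Finset ((ι → ℤ) × (ι → ℤˣ)), S =
      (U ×ˢ (univ : Finset (ι → ℤˣ))).filter fun s => near T lam D s.2 s.1 := ⟨_, rfl⟩
  have memS : ∀ s, s ∈ S ↔ s.1 ∈ U ∧ near T lam D s.2 s.1 := by
    intro s
    rw [hS, Finset.mem_filter, Finset.mem_product]
    simp
  have hsum : ∑ u ∈ U, (cnt T lam D u : ℝ) = (S.card : ℝ) := by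
    rw [hS, Finset.card_filter, Finset.sum_product]
    push_cast
    apply Finset.sum_congr rfl
    intro u _
    unfold cnt
    rw [Finset.card_filter]
    push_cast
    apply Finset.sum_congr
    · ext x
      simp
    · intro x _
      rfl
  rw [hsum]
  -- the vector w
  obtain ⟨w, hw⟩ : ∃ w : (ι → ℤˣ) → ι → ℝ, w = fun y i =>
      T.mulVec (sv y) i / Real.sqrt (Fintype.card ι) := ⟨_, rfl⟩
  have hwn : ∀ y, ∑ i, (w y i - 0) ^ 2 ≤ n := by
    intro y
    have h3 : ∑ i, (w y i - 0) ^ 2 = ∑ i, (T.mulVec (sv y) i / Real.sqrt (Fintype.card ι)) ^ 2 := by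
      rw [hw]
      simp
    rw [h3, CPS_iso hn hT, CPS_sv, hnn]
  have hww : ∀ y y', ∑ i, (w y i - w y' i) ^ 2 = ∑ i, (sv y i - sv y' i) ^ 2 := by
    intro y y'
    have h3 := CPS_iso hn hT (sv y - sv y')
    rw [Matrix.mulVec_sub] at h3
    have h4 : ∑ i, (w y i - w y' i) ^ 2 = ∑ i, ((T.mulVec (sv y) - T.mulVec (sv y')) i /
        Real.sqrt (Fintype.card ι)) ^ 2 := by
      apply Finset.sum_congr rfl
      intro i _
      rw [hw, Pi.sub_apply, sub_div]
    rw [h4, h3]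
    rfl
  have hnear : ∀ s ∈ S, ∑ i, (w s.2 i - lam * (s.1 i : ℝ)) ^ 2 ≤ D := by
    intro s hs
    have h3 := ((memS s).1 hs).2
    unfold near at h3
    rw [hw]
    exact h3
  -- the rounding
  obtain ⟨g, hg⟩ : ∃ g : (ι → ℤ) × (ι → ℤˣ) → ι → ℤ, g = fun s i =>
      round (lam * (s.1 i : ℝ)) := ⟨_, rfl⟩
  have hwg : ∀ s ∈ S, ∑ i, (w s.2 i - (g s i : ℝ)) ^ 2 ≤ κ * n := by
    intro s hs
    have h3 := hnear s hs
    have h4 : ∑ i, (lam * (s.1 i : ℝ) - (g s i : ℝ)) ^ 2 ≤ κ / 4 * n := by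
      have h5 := CPS_round lam s.1
      have h6 := hU s.1 ((memS s).1 hs).1
      rw [hg]
      refine h5.trans ?_
      linarith
    have h5 := CPS_sq (fun i => w s.2 i) (fun i => lam * (s.1 i : ℝ)) (fun i => (g s i : ℝ))
      (h3.trans hD2) h4
    refine h5.trans ?_
    linarith
  -- the number of g
  have hG : ((S.image g).card : ℝ) ≤ Real.exp (φ / 2 * n) := by
    rw [hnn]
    apply H2 ι (S.image g)
    intro z hz
    obtain ⟨s, hs, rfl⟩ := Finset.mem_image.1 hz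
    rw [← hnn]
    have hs1 := hU s.1 ((memS s).1 hs).1
    refine ⟨?_, ?_⟩
    · have h3 : spt (g s) ≤ spt s.1 := by
        rw [hg]
        exact CPS_spt lam s.1
      calc (spt (g s) : ℝ) ≤ spt s.1 := by exact_mod_cast h3
        _ ≤ κ * n := hs1
        _ ≤ κ₂ * n := mul_le_mul_of_nonneg_right hκa hn0
    · have h3 := hwg s hs
      rw [CPS_sym] at h3
      have h4 := CPS_sq (fun i => (g s i : ℝ)) (fun i => w s.2 i) (fun _ => (0 : ℝ)) h3 (hwn s.2)
      have h5 : ∑ i, ((g s i : ℝ) - 0) ^ 2 = ∑ i, (g s i : ℝ) ^ 2 := by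
        apply Finset.sum_congr rfl
        intro i _
        rw [sub_zero]
      rw [h5] at h4
      have h6 : κ * n ≤ 1 * n := mul_le_mul_of_nonneg_right (hκa.trans hκ21) hn0
      linarith
  -- the fibres of g
  have hF : ∀ z ∈ S.image g, ((S.filter fun s => g s = z).card : ℝ) ≤
      Real.exp (η * n) * Real.exp (φ / 2 * n) := by
    intro z _
    obtain ⟨S', hS'⟩ : ∃ S' : Finset ((ι → ℤ) × (ι → ℤˣ)), S' = S.filter fun s => g s = z :=
      ⟨_, rfl⟩
    rw [← hS']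
    have memS' : ∀ s ∈ S', s ∈ S ∧ g s = z := by
      intro s hs
      rw [hS', Finset.mem_filter] at hs
      exact hs
    -- the number of y
    have hY : ((S'.image Prod.snd).card : ℝ) ≤ Real.exp (φ / 2 * n) := by
      obtain ⟨iy, hiy⟩ : ∃ iy : (ι → ℤˣ) → ι → ℤ, iy = fun y i => ((y i : ℤˣ) : ℤ) := ⟨_, rfl⟩
      have hinj : Function.Injective iy := by
        intro y y' e
        funext i
        have h3 := congrFun e i
        rw [hiy] at h3
        exact Units.ext h3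
      have h4 : ((S'.image Prod.snd).image iy).card = (S'.image Prod.snd).card :=
        Finset.card_image_of_injective _ hinj
      rw [← h4, hnn]
      apply H1 ι
      intro u hu v hv
      obtain ⟨y, hy, rfl⟩ := Finset.mem_image.1 hu
      obtain ⟨y', hy', rfl⟩ := Finset.mem_image.1 hv
      obtain ⟨s, hs, rfl⟩ := Finset.mem_image.1 hy
      obtain ⟨s', hs', rfl⟩ := Finset.mem_image.1 hy'
      rw [← hnn]
      have e1 := hwg s (memS' s hs).1
      have e2 := hwg s' (memS' s' hs').1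
      rw [(memS' s hs).2] at e1
      rw [(memS' s' hs').2, CPS_sym] at e2
      have e3 := CPS_sq (fun i => w s.2 i) (fun i => (z i : ℝ)) (fun i => w s'.2 i) e1 e2
      have e4 := hww s.2 s'.2
      have e5 : ∑ i, (((iy s.2 i : ℤ) : ℝ) - ((iy s'.2 i : ℤ) : ℝ)) ^ 2 =
          ∑ i, (sv s.2 i - sv s'.2 i) ^ 2 := by
        rw [hiy]
        rfl
      rw [e5, ← e4]
      refine le_trans e3 ?_
      have e6 : κ * n ≤ ρ₁ / 4 * n := mul_le_mul_of_nonneg_right hκb hn0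
      linarith
    -- the number of u
    have hV : ∀ y ∈ S'.image Prod.snd, ((S'.filter fun s => s.2 = y).card : ℝ) ≤
        Real.exp (η * n) := by
      intro y _
      have h3 : ((S'.filter fun s => s.2 = y).image Prod.fst).card =
          (S'.filter fun s => s.2 = y).card := by
        apply Finset.card_image_of_injOn
        intro s hs s' hs' e
        rw [Finset.mem_coe, Finset.mem_filter] at hs hs'
        exact Prod.ext e (hs.2.trans hs'.2.symm)
      rw [← h3, hnn]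
      apply H3 ι
      intro u hu v hv
      obtain ⟨s, hs, rfl⟩ := Finset.mem_image.1 hu
      obtain ⟨s', hs', rfl⟩ := Finset.mem_image.1 hv
      rw [Finset.mem_filter] at hs hs'
      rw [← hnn]
      have e1 := hnear s (memS' s hs.1).1
      have e2 := hnear s' (memS' s' hs'.1).1
      rw [hs'.2, CPS_sym] at e2
      rw [hs.2, CPS_sym] at e1
      rw [CPS_sym] at e2
      have e3 := CPS_sq (fun i => lam * (s.1 i : ℝ)) (fun i => w y i) (fun i => lam * (s'.1 i : ℝ))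
        e1 e2
      have e4 : ∑ i, (lam * (s.1 i : ℝ) - lam * (s'.1 i : ℝ)) ^ 2 =
          lam ^ 2 * ∑ i, ((s.1 i : ℝ) - (s'.1 i : ℝ)) ^ 2 := by
        rw [Finset.mul_sum]
        apply Finset.sum_congr rfl
        intro i _
        ring
      rw [e4] at e3
      have hl : 0 < lam ^ 2 := by positivity
      have e5 : lam ^ 2 * ∑ i, ((s.1 i : ℝ) - (s'.1 i : ℝ)) ^ 2 ≤ lam ^ 2 * (ρ₂ * n) := by
        refine e3.trans ?_
        have : lam ^ 2 * ρ₂ / 4 * n = lam ^ 2 * (ρ₂ * n) / 4 := by ring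
        linarith
      exact le_of_mul_le_mul_left e5 hl
    calc (S'.card : ℝ) ≤ Real.exp (η * n) * ((S'.image Prod.snd).card : ℝ) :=
          CPS_fib S' Prod.snd hV
      _ ≤ Real.exp (η * n) * Real.exp (φ / 2 * n) :=
          mul_le_mul_of_nonneg_left hY (Real.exp_pos _).le
  calc (S.card : ℝ) ≤ Real.exp (η * n) * Real.exp (φ / 2 * n) * ((S.image g).card : ℝ) :=
        CPS_fib S g hF
    _ ≤ Real.exp (η * n) * Real.exp (φ / 2 * n) * Real.exp (φ / 2 * n) :=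
        mul_le_mul_of_nonneg_left hG (by positivity)
    _ = Real.exp ((φ + η) * n) := by
        rw [← Real.exp_add, ← Real.exp_add]
        congr 1
        ring

end Pool.Agent.helper43.BMH
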