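import Pool.Agent.helper43.BMH.Spec

set_option autoImplicit false

namespace Pool.Agent.helper43.BMH

open scoped ENNReal
open Pool.Agent.helper75.BM

/-- the linear equivalence -/
noncomputable def HLA_equiv {d : ℕ} (H : Matrix (Fin d) (Fin d) ℝ) (s : ℝ) (hs : s ≠ 0)
    (hd : (d : ℝ) ≠ 0) (h1 : H * H.transpose = (d : ℝ) • (1 : Matrix (Fin d) (Fin d) ℝ))
    (h2 : H.transpose * H = (d : ℝ) • (1 : Matrix (Fin d) (Fin d) ℝ)) :
    (Fin d → ℝ) ≃ₗ[ℝ] (Fin d → ℝ) where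
  toFun x := s • H.mulVec x
  map_add' x y := by rw [Matrix.mulVec_add, smul_add]
  map_smul' a x := by
    rw [Matrix.mulVec_smul, RingHom.id_apply, smul_comm]
  invFun y := (s⁻¹ * (d : ℝ)⁻¹) • H.transpose.mulVec y
  left_inv x := by
    show (s⁻¹ * (d : ℝ)⁻¹) • H.transpose.mulVec (s • H.mulVec x) = x
    rw [Matrix.mulVec_smul, Matrix.mulVec_mulVec, h2, Matrix.smul_mulVec, Matrix.one_mulVec,
      smul_smul, smul_smul]
    have : s⁻¹ * (d : ℝ)⁻¹ * s * (d : ℝ) = 1 := by field_simp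
    rw [this, one_smul]
  right_inv y := by
    show s • H.mulVec ((s⁻¹ * (d : ℝ)⁻¹) • H.transpose.mulVec y) = y
    rw [Matrix.mulVec_smul, Matrix.mulVec_mulVec, h1, Matrix.smul_mulVec, Matrix.one_mulVec,
      smul_smul, smul_smul]
    have : s * (s⁻¹ * (d : ℝ)⁻¹) * (d : ℝ) = 1 := by field_simp
    rw [this, one_smul]

theorem t_hla (hn : HDN) (hq : HPQ) : HLA := by
  intro p q _ _ hp2 hq2 d H c hd hc hH hyp
  obtain ⟨h2, hHt, _⟩ := hn (Fin d) H hH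
  have h1 := hH.2
  rw [Fintype.card_fin] at h1 h2
  have hd0 : (0 : ℝ) < d := by exact_mod_cast hd
  obtain ⟨E, hE⟩ : ∃ E : ℝ, E = (1 / p).toReal + 1 / 2 - (1 / q).toReal := ⟨_, rfl⟩
  obtain ⟨K, hK⟩ : ∃ K : ℝ, K = c * (d : ℝ) ^ E := ⟨_, rfl⟩
  have hK0 : 0 < K := by
    rw [hK]
    positivity
  rw [← hE, ← hK] at hyp
  have hs : K⁻¹ ≠ 0 := inv_ne_zero hK0.ne'
  refine ⟨by positivity, HLA_equiv H K⁻¹ hs hd0.ne' h1 h2, ?_, ?_⟩
  · intro x
    show nrm p (K⁻¹ • H.mulVec x) ≤ nrm q x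
    rw [nrm_smul, abs_of_pos (by positivity), inv_mul_le_iff₀ hK0]
    exact hyp x
  · intro x
    show nrm q x ≤ c * (d : ℝ) ^ gam p q * nrm p (K⁻¹ • H.mulVec x)
    have e1 : x = (d : ℝ)⁻¹ • H.transpose.mulVec (H.mulVec x) := by
      rw [Matrix.mulVec_mulVec, h2, Matrix.smul_mulVec, Matrix.one_mulVec, smul_smul,
        inv_mul_cancel₀ hd0.ne', one_smul]
    have h3 := hq p q hp2 hq2 d H.transpose hd hHt (H.mulVec x)
    obtain ⟨μ, hμ⟩ : ∃ μ : ℝ, μ = max (1 / q).toReal (1 - (1 / p).toReal) := ⟨_, rfl⟩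
    rw [← hμ] at h3
    have h4 : nrm q x = (d : ℝ)⁻¹ * nrm q (H.transpose.mulVec (H.mulVec x)) := by
      have h5 : nrm q ((d : ℝ)⁻¹ • H.transpose.mulVec (H.mulVec x)) =
          (d : ℝ)⁻¹ * nrm q (H.transpose.mulVec (H.mulVec x)) := by
        rw [nrm_smul, abs_of_pos (by positivity)]
      rw [← e1] at h5
      exact h5
    have h6 : gam p q = -1 + μ + E := by
      unfold gam
      rw [hμ, hE]
      rcases le_total (1 / q).toReal (1 - (1 / p).toReal) with h | h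
      · rw [max_eq_right h, max_eq_right (by linarith)]
        ring
      · rw [max_eq_left h, max_eq_left (by linarith)]
        ring
    have h7 : (d : ℝ) ^ gam p q = (d : ℝ)⁻¹ * (d : ℝ) ^ μ * (d : ℝ) ^ E := by
      rw [h6, Real.rpow_add hd0, Real.rpow_add hd0, Real.rpow_neg_one]
    have h8 : K * K⁻¹ = 1 := mul_inv_cancel₀ hK0.ne'
    rw [nrm_smul, abs_of_pos (by positivity : 0 < K⁻¹), h7, h4]
    calc (d : ℝ)⁻¹ * nrm q (H.transpose.mulVec (H.mulVec x))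
        ≤ (d : ℝ)⁻¹ * ((d : ℝ) ^ μ * nrm p (H.mulVec x)) :=
          mul_le_mul_of_nonneg_left h3 (by positivity)
      _ = (d : ℝ)⁻¹ * ((d : ℝ) ^ μ * nrm p (H.mulVec x)) * (K * K⁻¹) := by rw [h8, mul_one]
      _ = c * ((d : ℝ)⁻¹ * (d : ℝ) ^ μ * (d : ℝ) ^ E) * (K⁻¹ * nrm p (H.mulVec x)) := by
          rw [hK]
          ring

end Pool.Agent.helper43.BMH
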